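import Pool.Agent.Run7.h146.Met.I3

/-!
# Piece NV of project MP_dd21b1_pr: existence of a Poisson process of meteors
-/

set_option autoImplicit false

open MeasureTheory Filter Topology ENNReal ProbabilityTheory

namespace Run7.h429.Met

theorem image_inst {α β : Type*} (i1 i2 : DecidableEq β) (f : α → β) (s : Finset α) :
    @Finset.image α β i1 f s = @Finset.image α β i2 f s := by
  rw [Subsingleton.elim i1 i2]

open Run7.h146.Met

/-- finite sequences of points -/
abbrev T (d : ℕ) := ℕ × (ℕ → X d)

open Classical in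
/-- the configuration of a sequence -/
noncomputable def cf {d : ℕ} (t : T d) : Finset (X d) := (Finset.range t.1).image t.2

/-- extension of a tuple -/
noncomputable def ex {d : ℕ} (k : ℕ) (y : Fin k → X d) : T d :=
  (k, fun i => if h : i < k then y ⟨i, h⟩ else 0)

open Classical in
theorem cf_ex {d : ℕ} (k : ℕ) (y : Fin k → X d) : cf (ex k y) = Finset.univ.image y := by
  ext z
  simp only [cf, ex, Finset.mem_image, Finset.mem_range, Finset.mem_univ, true_and]
  constructor
  · rintro ⟨i, hi, rfl⟩
    exact ⟨⟨i, hi⟩, by simp [hi]⟩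
  · rintro ⟨i, rfl⟩
    exact ⟨i, i.2, by simp [i.2]⟩

open Classical in
theorem measurable_img {d : ℕ} (n : ℕ) :
    Measurable (fun y : Fin n → X d => (Finset.univ.image y : Finset (X d))) := by
  intro s hs
  have h2 := MeasurableSpace.map_def.1 ((MeasurableSpace.measurableSet_iInf).1 hs n)
  refine (congrArg MeasurableSet ?_).mpr h2
  ext y
  exact iff_of_eq (congrArg (fun F => F ∈ s) (image_inst _ _ _ _))

theorem measurable_ex {d : ℕ} (k : ℕ) : Measurable (ex (d := d) k) := by
  unfold ex
  refine measurable_const.prodMk (measurable_pi_iff.2 fun i => ?_)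
  by_cases h : i < k
  · simpa [h] using measurable_pi_apply _
  · simp [h]

theorem measurable_cf {d : ℕ} : Measurable (cf (d := d)) := by
  classical
  refine measurable_from_prod_countable_right fun k => ?_
  have h : (fun y : ℕ → X d => cf ((k, y) : T d)) =
      fun y => (Finset.univ.image (fun i : Fin k => y i) : Finset (X d)) := by
    funext y
    ext z
    simp only [cf, Finset.mem_image, Finset.mem_range, Finset.mem_univ, true_and]
    constructor
    · rintro ⟨i, hi, rfl⟩
      exact ⟨⟨i, hi⟩, rfl⟩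
    · rintro ⟨i, rfl⟩
      exact ⟨i, i.2, rfl⟩
  show Measurable (fun y : ℕ → X d => cf ((k, y) : T d))
  rw [h]
  exact (measurable_img k).comp (measurable_pi_iff.2 fun i => measurable_pi_apply _)

/-- concatenation -/
noncomputable def ap {d : ℕ} (t s : T d) : T d :=
  (t.1 + s.1, fun i => if i < t.1 then t.2 i else s.2 (i - t.1))

theorem cf_ap {d : ℕ} (t s : T d) (z : X d) : z ∈ cf (ap t s) ↔ z ∈ cf t ∨ z ∈ cf s := by
  classical
  simp only [cf, ap, Finset.mem_image, Finset.mem_range]
  constructor
  · rintro ⟨i, hi, rfl⟩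
    by_cases h : i < t.1
    · exact Or.inl ⟨i, h, by simp [h]⟩
    · exact Or.inr ⟨i - t.1, by omega, by simp [h]⟩
  · rintro (⟨i, hi, rfl⟩ | ⟨i, hi, rfl⟩)
    · exact ⟨i, by omega, by simp [hi]⟩
    · exact ⟨t.1 + i, by omega, by simp⟩

theorem measurable_ap {d : ℕ} : Measurable (fun p : T d × T d => ap p.1 p.2) := by
  unfold ap
  refine Measurable.prodMk (by fun_prop) (measurable_pi_iff.2 fun i => ?_)
  refine Measurable.ite ?_ ?_ ?_
  · have : Measurable fun p : T d × T d => p.1.1 := by fun_prop
    exact this (measurableSet_Ioi (a := i))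
  · fun_prop
  · have h : Measurable (fun q : ℕ × (ℕ → X d) => q.2 (i - q.1)) :=
      measurable_from_prod_countable_right fun k => measurable_pi_apply (i - k)
    have h2 : Measurable (fun p : T d × T d => ((p.1.1, p.2.2) : ℕ × (ℕ → X d))) := by fun_prop
    exact h.comp h2

/-- the law of the sequence -/
noncomputable def rho {d : ℕ} (ν : Measure (X d)) : Measure (T d) :=
  Measure.sum fun n : ℕ => (ENNReal.ofReal (Real.exp (-(ν Set.univ).toReal)) / (n.factorial : ℝ≥0∞)) •
    (Measure.pi (fun _ : Fin n => ν)).map (ex n)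

theorem rho_map {d : ℕ} (ν : Measure (X d)) : (rho ν).map cf = poi ν := by
  classical
  unfold rho poi
  rw [Measure.map_sum measurable_cf.aemeasurable]
  congr 1
  funext n
  rw [Measure.map_smul, Measure.map_map measurable_cf (measurable_ex n)]
  congr 2
  funext y
  simp only [Function.comp_apply, cf_ex]
  exact image_inst _ _ _ _

theorem rho_prob {d : ℕ} (ν : Measure (X d)) (h : IsProbabilityMeasure (poi ν)) :
    IsProbabilityMeasure (rho ν) := by
  refine ⟨?_⟩
  have h1 := h.measure_univ
  rw [← rho_map, Measure.map_apply measurable_cf MeasurableSet.univ, Set.preimage_univ] at h1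
  exact h1

/-- annuli -/
def An (d n : ℕ) : Set (V d) := {x | (n : ℝ) ≤ ‖x‖ ∧ ‖x‖ < n + 1}

theorem measurableSet_An (d n : ℕ) : MeasurableSet (An d n) :=
  (measurableSet_le measurable_const measurable_norm).inter
    (measurableSet_lt measurable_norm measurable_const)

/-- the concatenation of the first `R` sequences -/
noncomputable def W {d : ℕ} : ℕ → (ℕ → T d) → T d
  | 0, _ => (0, fun _ => 0)
  | R + 1, ω => ap (W R ω) (ω R)

theorem measurable_W {d : ℕ} (R : ℕ) : Measurable (W (d := d) R) := by
  induction R with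
  | zero => exact measurable_const
  | succ R ih => exact measurable_ap.comp (ih.prodMk (measurable_pi_apply R))

theorem W_congr {d : ℕ} (R : ℕ) (ω ω' : ℕ → T d) (h : ∀ n < R, ω n = ω' n) : W R ω = W R ω' := by
  induction R with
  | zero => rfl
  | succ R ih =>
    show ap (W R ω) (ω R) = ap (W R ω') (ω' R)
    rw [ih (fun n hn => h n (by omega)), h R (by omega)]

theorem mem_cf_W {d : ℕ} (R : ℕ) (ω : ℕ → T d) (z : X d) :
    z ∈ cf (W R ω) ↔ ∃ n < R, z ∈ cf (ω n) := by
  induction R with
  | zero => simp [W, cf]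
  | succ R ih =>
    show z ∈ cf (ap (W R ω) (ω R)) ↔ _
    rw [cf_ap, ih]
    constructor
    · rintro (⟨n, hn, h⟩ | h)
      · exact ⟨n, by omega, h⟩
      · exact ⟨R, by omega, h⟩
    · rintro ⟨n, hn, h⟩
      rcases Nat.lt_succ_iff_lt_or_eq.1 hn with h1 | rfl
      · exact Or.inl ⟨n, h1, h⟩
      · exact Or.inr h

theorem indep {d : ℕ} (ρ : ℕ → Measure (T d)) [∀ n, IsProbabilityMeasure (ρ n)] (R : ℕ) :
    (Measure.infinitePi ρ).map (fun ω => (W R ω, ω R)) =
      ((Measure.infinitePi ρ).map (W R)).prod (ρ R) := by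
  classical
  have h := iIndepFun_infinitePi (P := ρ) (X := fun _ t => t) (fun _ => measurable_id)
  have h2 := h.indepFun_finset (Finset.range R) {R} (by simp) (fun i => measurable_pi_apply i)
  let φ : ((i : Finset.range R) → T d) → T d :=
    fun a => W R (fun n => if h : n ∈ Finset.range R then a ⟨n, h⟩ else (0, fun _ => 0))
  let ψ : ((i : ({R} : Finset ℕ)) → T d) → T d := fun a => a ⟨R, by simp⟩
  have hφ : Measurable φ := by
    refine (measurable_W R).comp (measurable_pi_iff.2 fun n => ?_)
    by_cases hn : n ∈ Finset.range R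
    · simpa only [hn, dite_true] using measurable_pi_apply _
    · simpa only [hn, dite_false] using measurable_const
  have hψ : Measurable ψ := measurable_pi_apply _
  have h3 := h2.comp hφ hψ
  have e1 : (φ ∘ fun (ω : ℕ → T d) (i : Finset.range R) => ω i) = W R := by
    funext ω
    refine W_congr R _ _ fun n hn => ?_
    simp [hn]
  have e2 : (ψ ∘ fun (ω : ℕ → T d) (i : ({R} : Finset ℕ)) => ω i) = fun ω => ω R := rfl
  have h4 : IndepFun (W R) (fun ω : ℕ → T d => ω R) (Measure.infinitePi ρ) := by
    rw [← e1, ← e2]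
    exact h3
  rw [h4.map_prod_eq_prod_map_map (measurable_W R).aemeasurable
    (measurable_pi_apply R).aemeasurable, Measure.infinitePi_map_eval]

theorem mB_empty (d : ℕ) : mB (∅ : Set (V d)) = 0 := by
  simp [mB]

theorem ball_succ (d R : ℕ) :
    Metric.ball (0 : V d) ((R + 1 : ℕ) : ℝ) = Metric.ball (0 : V d) (R : ℝ) ∪ An d R := by
  ext x
  simp only [Metric.mem_ball, dist_zero_right, An, Set.mem_union, Set.mem_ofPred_eq, Nat.cast_add,
    Nat.cast_one]
  constructor
  · intro h
    rcases lt_or_ge ‖x‖ (R : ℝ) with h1 | h1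
    · exact Or.inl h1
    · exact Or.inr ⟨h1, h⟩
  · rintro (h | h)
    · linarith
    · exact h.2

theorem volume_An (d n : ℕ) : volume (An d n) ≠ ⊤ := by
  have h : An d n ⊆ Metric.ball (0 : V d) ((n + 1 : ℕ) : ℝ) := by
    rw [ball_succ]
    exact Set.subset_union_right
  exact ((measure_mono h).trans_lt measure_ball_lt_top).ne

theorem law_zero (h1 : S_PO1) (d : ℕ) (G : Finset (X d) → ℝ≥0∞) (hG : Measurable G) :
    ∫⁻ F, G F ∂(PQ d ((0 : ℕ) : ℝ)) = G ∅ := by
  have e : PQ d ((0 : ℕ) : ℝ) = poi (0 : Measure (X d)) := by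
    unfold PQ
    rw [Nat.cast_zero, Metric.ball_zero, mB_empty]
  rw [e, (h1 d 0).2.1 G hG, tsum_eq_single 0]
  · simp
  · intro n hn
    have : Measure.pi (fun _ : Fin n => (0 : Measure (X d))) = 0 := by
      rw [← Measure.measure_univ_eq_zero, Measure.pi_univ]
      simp [hn]
    simp [this]

theorem law (h1 : S_PO1) (hM : S_MB) (hN : S_NVP) (d : ℕ) (hd : 0 < d) (R : ℕ) :
    ∀ G : Finset (X d) → ℝ≥0∞, Measurable G →
    ∫⁻ ω, G (cf (W R ω)) ∂(Measure.infinitePi (fun n => rho (mB (An d n)))) =
      ∫⁻ F, G F ∂(PQ d (R : ℝ)) := by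
  classical
  have hfin : ∀ n, IsFiniteMeasure (mB (An d n)) := fun n =>
    ((hM d hd).2.2.2 (An d n) (measurableSet_An d n) (volume_An d n)).1
  have hp : ∀ n, IsProbabilityMeasure (poi (mB (An d n))) := fun n => (h1 d (mB (An d n))).1
  have hr : ∀ n, IsProbabilityMeasure (rho (mB (An d n))) := fun n => rho_prob _ (hp n)
  induction R with
  | zero =>
    intro G hG
    rw [law_zero h1 d G hG]
    have : ∀ ω : ℕ → T d, cf (W 0 ω) = ∅ := by
      intro ω
      simp [W, cf]
    simp [this]
  | succ R ih =>
    intro G hG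
    obtain ⟨n1, n2, n3⟩ := hN d (Metric.ball (0 : V d) (R : ℝ)) (An d R) hd measurableSet_ball
      (measurableSet_An d R) measure_ball_lt_top.ne (volume_An d R) (by
        rw [Set.disjoint_left]
        intro x hx hx2
        rw [Metric.mem_ball, dist_zero_right] at hx
        exact absurd hx2.1 (not_le.2 hx)) G hG
    have hm : Measurable (fun p : T d × T d => G (cf (ap p.1 p.2))) :=
      hG.comp (measurable_cf.comp measurable_ap)
    have hpair : Measurable (fun ω : ℕ → T d => (W R ω, ω R)) :=
      (measurable_W R).prodMk (measurable_pi_apply R)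
    calc ∫⁻ ω, G (cf (W (R + 1) ω)) ∂(Measure.infinitePi (fun n => rho (mB (An d n))))
        = ∫⁻ p : T d × T d, G (cf (ap p.1 p.2))
          ∂((Measure.infinitePi (fun n => rho (mB (An d n)))).map (fun ω => (W R ω, ω R))) := by
          rw [lintegral_map hm hpair]
          rfl
      _ = ∫⁻ t, ∫⁻ s, G (cf (ap t s)) ∂(rho (mB (An d R)))
          ∂((Measure.infinitePi (fun n => rho (mB (An d n)))).map (W R)) := by
          rw [indep, lintegral_prod _ hm.aemeasurable]
      _ = ∫⁻ t, ∫⁻ F', G (cf t ∪ F') ∂(poi (mB (An d R)))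
          ∂((Measure.infinitePi (fun n => rho (mB (An d n)))).map (W R)) := by
          refine lintegral_congr fun t => ?_
          rw [← rho_map, lintegral_map]
          · refine lintegral_congr fun s => ?_
            congr 1
            ext z
            rw [cf_ap, Finset.mem_union]
          · have := n1 (cf t)
            convert this using 2 with F
            congr 1
            ext z
            simp only [Finset.mem_union]
            tauto
          · exact measurable_cf
      _ = ∫⁻ ω, ∫⁻ F', G (cf (W R ω) ∪ F') ∂(poi (mB (An d R)))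
          ∂(Measure.infinitePi (fun n => rho (mB (An d n)))) := by
          rw [lintegral_map _ (measurable_W R)]
          exact n2.comp (measurable_cf (d := d))
      _ = ∫⁻ F, ∫⁻ F', G (F ∪ F') ∂(poi (mB (An d R))) ∂(PQ d (R : ℝ)) := by
          have := ih (fun F => ∫⁻ F', G (F ∪ F') ∂(poi (mB (An d R)))) (by convert n2 using 2)
          exact this
      _ = ∫⁻ F, G F ∂(PQ d ((R + 1 : ℕ) : ℝ)) := by
          unfold PQ
          rw [ball_succ]
          rw [n3]

/-- all the points of the `n`-th sequence lie in the `n`-th annulus -/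
def Good (d : ℕ) : Set (ℕ → T d) := {ω | ∀ n i, i < (ω n).1 → ((ω n).2 i).1 ∈ An d n}

theorem measurableSet_Good (d : ℕ) : MeasurableSet (Good d) := by
  have e : Good d = ⋂ n : ℕ, ⋂ i : ℕ, ({ω : ℕ → T d | i < (ω n).1}ᶜ ∪
      {ω : ℕ → T d | ((ω n).2 i).1 ∈ An d n}) := by
    ext ω
    simp only [Good, Set.mem_ofPred_eq, Set.mem_iInter, Set.mem_union, Set.mem_compl_iff]
    refine forall_congr' fun n => forall_congr' fun i => ?_
    tauto
  rw [e]
  refine MeasurableSet.iInter fun n => MeasurableSet.iInter fun i => MeasurableSet.union ?_ ?_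
  · refine MeasurableSet.compl ?_
    have : Measurable fun ω : ℕ → T d => (ω n).1 := measurable_fst.comp (measurable_pi_apply n)
    exact this (measurableSet_Ioi (a := i))
  · have : Measurable fun ω : ℕ → T d => ((ω n).2 i).1 :=
      measurable_fst.comp ((measurable_pi_apply i).comp
        (measurable_snd.comp (measurable_pi_apply n)))
    exact this (measurableSet_An d n)

theorem ae_rho (d n : ℕ) (_hs : IsProbabilityMeasure (sig d)) (hf : IsFiniteMeasure (mB (An d n))) :
    ∀ᵐ t ∂(rho (mB (An d n))), ∀ i, i < t.1 → (t.2 i).1 ∈ An d n := by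
  rw [ae_all_iff]
  intro i
  unfold rho
  rw [Measure.ae_sum_iff]
  intro k
  refine Measure.ae_smul_measure ?_ _
  have hm : MeasurableSet {t : T d | i < t.1 → (t.2 i).1 ∈ An d n} := by
    have e : {t : T d | i < t.1 → (t.2 i).1 ∈ An d n} = {t : T d | i < t.1}ᶜ ∪
        {t : T d | (t.2 i).1 ∈ An d n} := by
      ext t
      simp only [Set.mem_ofPred_eq, Set.mem_union, Set.mem_compl_iff]
      tauto
    rw [e]
    refine MeasurableSet.union (MeasurableSet.compl ?_) ?_
    · exact measurable_fst (measurableSet_Ioi (a := i))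
    · have : Measurable fun t : T d => (t.2 i).1 :=
        measurable_fst.comp ((measurable_pi_apply i).comp measurable_snd)
      exact this (measurableSet_An d n)
  rw [ae_map_iff (measurable_ex k).aemeasurable hm]
  by_cases hik : i < k
  · have h0 : ∀ᵐ z ∂(mB (An d n)), z.1 ∈ An d n := by
      unfold mB
      have : ∀ᵐ x ∂(volume.restrict (An d n)), x ∈ An d n :=
        ae_restrict_mem (measurableSet_An d n)
      exact Measure.quasiMeasurePreserving_fst.ae this
    have h1 := (Measure.quasiMeasurePreserving_eval (μ := fun _ : Fin k => mB (An d n))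
      (⟨i, hik⟩ : Fin k)).ae h0
    filter_upwards [h1] with y hy _
    simpa [ex, hik] using hy
  · refine Filter.Eventually.of_forall fun y h => ?_
    exact absurd h hik

open Classical in
/-- the infinite configuration -/
noncomputable def PiN (d : ℕ) (ω : ℕ → T d) : Set (X d) :=
  if ω ∈ Good d then {z | ∃ n, z ∈ cf (ω n)} else ∅

theorem mem_An_of (d : ℕ) (ω : ℕ → T d) (hω : ω ∈ Good d) (n : ℕ) (z : X d) (hz : z ∈ cf (ω n)) :
    z.1 ∈ An d n := by
  classical
  simp only [cf, Finset.mem_image, Finset.mem_range] at hz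
  obtain ⟨i, hi, rfl⟩ := hz
  exact hω n i hi

open Classical in
theorem PiN_inter (d : ℕ) (ω : ℕ → T d) (R : ℕ) :
    PiN d ω ∩ {z | ‖z.1‖ < R} = ((if ω ∈ Good d then cf (W R ω) else ∅ : Finset (X d)) : Set (X d)) := by
  unfold PiN
  split_ifs with h
  · ext z
    simp only [Set.mem_inter_iff, Set.mem_ofPred_eq, Finset.mem_coe, mem_cf_W]
    constructor
    · rintro ⟨⟨n, hn⟩, hz⟩
      have h1 := mem_An_of d ω h n z hn
      refine ⟨n, ?_, hn⟩
      have : (n : ℝ) < R := lt_of_le_of_lt h1.1 hz
      exact_mod_cast this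
    · rintro ⟨n, hn, hz⟩
      refine ⟨⟨n, hz⟩, ?_⟩
      have h1 := mem_An_of d ω h n z hz
      have h2 : ((n : ℝ) + 1) ≤ R := by exact_mod_cast hn
      exact lt_of_lt_of_le h1.2 h2
  · simp

theorem t_NV : S_PO1 → S_PO2 → S_IND → S_MB → S_MEAS → S_NVP → S_NV := by
  classical
  intro h1 _ _ hM _ hN d hd
  have hfin : ∀ n, IsFiniteMeasure (mB (An d n)) := fun n =>
    ((hM d hd).2.2.2 (An d n) (measurableSet_An d n) (volume_An d n)).1
  have hp : ∀ n, IsProbabilityMeasure (poi (mB (An d n))) := fun n => (h1 d (mB (An d n))).1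
  have hr : ∀ n, IsProbabilityMeasure (rho (mB (An d n))) := fun n => rho_prob _ (hp n)
  have hs : IsProbabilityMeasure (sig d) := (hM d hd).1
  have hgood : ∀ᵐ ω ∂(Measure.infinitePi (fun n => rho (mB (An d n)))), ω ∈ Good d := by
    have : ∀ n, ∀ᵐ ω ∂(Measure.infinitePi (fun n => rho (mB (An d n)))),
        ∀ i, i < (ω n).1 → ((ω n).2 i).1 ∈ An d n := fun n =>
      (measurePreserving_eval_infinitePi (fun n => rho (mB (An d n))) n).quasiMeasurePreserving.ae
        (ae_rho d n hs (hfin n))
    filter_upwards [ae_all_iff.2 this] with ω hω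
    exact hω
  have hF : ∀ (ω : ℕ → T d) (R : ℕ), (PiN d ω ∩ {z | ‖z.1‖ < R}).Finite := by
    intro ω R
    rw [PiN_inter]
    exact Finset.finite_toSet _
  have hcoe : ∀ R : ℕ, (fun ω => (hF ω R).toFinset) =
      fun ω => if ω ∈ Good d then cf (W R ω) else ∅ := by
    intro R
    funext ω
    apply Finset.coe_injective
    rw [Set.Finite.coe_toFinset, PiN_inter]
  have hmeas : ∀ R : ℕ, Measurable fun ω : ℕ → T d => if ω ∈ Good d then cf (W R ω) else ∅ :=
    fun R => Measurable.ite (measurableSet_Good d) (measurable_cf.comp (measurable_W R))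
      measurable_const
  refine ⟨ℕ → T d, inferInstance, Measure.infinitePi (fun n => rho (mB (An d n))), inferInstance,
    PiN d, ⟨hF, ?_, ?_⟩⟩
  · intro R
    rw [hcoe]
    exact hmeas R
  · intro R
    rw [hcoe]
    have hae : (fun ω => if ω ∈ Good d then cf (W R ω) else ∅) =ᵐ[Measure.infinitePi
        (fun n => rho (mB (An d n)))] fun ω => cf (W R ω) := by
      filter_upwards [hgood] with ω hω
      simp [hω]
    rw [Measure.map_congr hae]
    ext A hA
    have h2 := law h1 hM hN d hd R (A.indicator 1) (measurable_one.indicator hA)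
    rw [lintegral_indicator_one hA] at h2
    have hcm : Measurable fun ω : ℕ → T d => cf (W R ω) := measurable_cf.comp (measurable_W R)
    rw [Measure.map_apply hcm hA, ← h2]
    have h3 : (fun ω : ℕ → T d => (A.indicator (1 : Finset (X d) → ℝ≥0∞)) (cf (W R ω))) =
        ((fun ω : ℕ → T d => cf (W R ω)) ⁻¹' A).indicator 1 := by
      funext ω
      simp only [Set.indicator, Set.mem_preimage, Pi.one_apply]
    rw [h3, lintegral_indicator_one (hcm hA)]

end Run7.h429.Met

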